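import Pool.Agent.Q211.AM.Cub

/-!
# A strongly filterbase infinite set that is dyadically filterbase finite

The model is a symmetric extension of permutation type. The atoms are the pairs in `ℕ × ℕ` (every
atom is represented by an infinite set of mutually generic Cohen reals). The group consists of the
permutations that preserve every column `{n} × ℕ` up to a finite set, and the normal filter is
generated by the stabilizers of the single atoms and of the single columns (and of the unions of
the first `n` columns). The class of the sets that differ from a column by a finite set is in the
model, and so is the sequence of these classes. It gives a compactification of the discrete space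
`A` of the atoms with the remainder `ω + 1`: the neighbourhoods of the point `n` contain the
column `n` up to a finite set, and the neighbourhoods of `ω` contain almost all points `m`, the
union of almost all columns, up to a finite set. Every subset of `A` in the model is, up to a
finite set, a finite union of columns or the complement of such a set. If the Cantor cube was the
remainder of a compactification of `A`, then disjoint non-empty clopen subsets of the cube would
give infinite, almost disjoint subsets of `A`, and complements would go to complements, but this is
impossible: below a set that is (up to a finite set) a union of `n` columns there are at most `n`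
infinite, pairwise almost disjoint sets.
-/

set_option autoImplicit false

namespace Pool.Agent.Results.MP_ec7d96_lc.StronglyNotDyadically

open Pool.Agent.W868 Pool.Agent.W868.PName Pool.Agent.Q211.SY Pool.Agent.Q211.FS
open Pool.Agent.Q211.TP Pool.Agent.Q211.AM

/-- There is a countable transitive model of ZF with a set `A` such that the space `ω + 1` is a
remainder of the discrete space `A`, but the Cantor cube is not. -/
theorem result : ∃ M : Set ZFSet.{0}, M.Countable ∧ IsZF M ∧ ∃ A ∈ M,
    (∃ K ∈ M, ∃ κ ∈ M, IsOm1 M K κ ∧ RemIn M A K κ) ∧
    ∃ N ∈ M, ∃ ν ∈ M, IsCube M N ν ∧ ¬ RemIn M A N ν := by
  obtain ⟨M, at', st, h⟩ := exists_alm (T := CT) cd2 cd2_Cd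
  have hM := h.zf
  obtain ⟨N, hN, ν, hν, h1, h2⟩ := exists_power hM (hM.nat_mem 2) (PM_mem hM (hM.nat_mem 2))
    hM.infinity
  exact ⟨M, h.cnt, hM, st Set.univ, h.stM _ univ_DA, rem_om1 h, N, hN, ν, hν, ⟨h1, h2⟩,
    not_rem h hN ⟨h1, h2⟩⟩

end Pool.Agent.Results.MP_ec7d96_lc.StronglyNotDyadically
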